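import Mathlib
import Pool.Agent.H239R2.Cover.Orient

/-!
Decompositions of simple graphs into stars `K_{1,m}` from `m` edge-disjoint connected spanning
subgraphs.
-/

set_option autoImplicit false

namespace Pool.Agent.N419.StarDec

open Finset Pool.Agent.H239R2.Cover

variable {V : Type} [Fintype V] [DecidableEq V]

/-- The orientation step, for simple graphs. -/
theorem exists_tail (G : SimpleGraph V) [DecidableRel G.Adj] (m : ℕ) (hm : 0 < m)
    (F : Fin m → SimpleGraph V) (hF : ∀ i, F i ≤ G ∧ (F i).Connected)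
    (hd : Pairwise (fun i j => Disjoint (F i) (F j))) (hdvd : m ∣ G.edgeFinset.card) :
    ∃ t : G.edgeSet → V, (∀ e, t e ∈ e.1) ∧
      ∀ v, m ∣ (univ.filter (fun e => t e = v)).card := by
  classical
  have hex : ∀ e : G.edgeSet, ∃ p : V × V, e.1 = s(p.1, p.2) := by
    rintro ⟨e, he⟩
    induction e using Sym2.ind with
    | _ a b => exact ⟨(a, b), rfl⟩
  choose ends hends using hex
  let src : G.edgeSet → V := fun e => (ends e).1
  let dst : G.edgeSet → V := fun e => (ends e).2
  let I : Fin m → Finset G.edgeSet := fun i => univ.filter (fun e => e.1 ∈ (F i).edgeSet)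
  obtain ⟨o, ho⟩ := orientation_of_packing src dst m hm I (by
      intro i j hij
      rw [Finset.disjoint_left]
      intro e he he'
      rw [mem_filter] at he he'
      have h1 := hd hij
      have h2 : e.1 = s((ends e).1, (ends e).2) := hends e
      rw [h2, SimpleGraph.mem_edgeSet] at he he'
      have h3 : (F i ⊓ F j).Adj (ends e).1 (ends e).2 := ⟨he.2, he'.2⟩
      rw [h1.eq_bot] at h3
      exact h3) (by
      intro i X hX hX'
      obtain ⟨a, ha⟩ := hX
      obtain ⟨b, hb⟩ : ∃ b, b ∉ X := by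
        by_contra hcon
        push Not at hcon
        exact hX' (Finset.eq_univ_iff_forall.2 hcon)
      obtain ⟨p⟩ := (hF i).2.preconnected a b
      obtain ⟨d, -, hd1, hd2⟩ := p.exists_boundary_dart (X : Set V) (by exact_mod_cast ha)
        (by exact_mod_cast hb)
      have hadj : (F i).Adj d.fst d.snd := d.adj
      refine ⟨⟨s(d.fst, d.snd), (hF i).1 hadj⟩, ?_, ?_⟩
      · simp only [I, mem_filter, mem_univ, true_and]
        exact hadj
      · have h2 := hends ⟨s(d.fst, d.snd), (hF i).1 hadj⟩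
        simp only [Sym2.eq_iff] at h2
        unfold Leaves
        simp only [src, dst]
        rw [Finset.mem_coe] at hd1 hd2
        rcases h2 with ⟨h3, h4⟩ | ⟨h3, h4⟩
        · rw [← h3, ← h4]
          tauto
        · rw [← h3, ← h4]
          tauto) (fun _ => 0) (by
      rw [Finset.sum_const_zero]
      symm
      rw [ZMod.natCast_eq_zero_iff]
      rw [SimpleGraph.edgeFinset_card] at hdvd
      exact hdvd)
  refine ⟨tail src dst o, ?_, ?_⟩
  · intro e
    rw [hends e]
    unfold tail
    split_ifs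
    · exact Sym2.mem_mk_left _ _
    · exact Sym2.mem_mk_right _ _
  · intro v
    have h1 := ho v
    rw [ZMod.natCast_eq_zero_iff] at h1
    exact h1

/-- the star with centre `v` and the leaves `nb i` -/
def starSub (G : SimpleGraph V) (m : ℕ) (v : V) (nb : Fin m → V) (h : ∀ i, G.Adj v (nb i)) :
    G.Subgraph where
  verts := {v} ∪ Set.range nb
  Adj x y := (x = v ∧ y ∈ Set.range nb) ∨ (y = v ∧ x ∈ Set.range nb)
  adj_sub := by
    rintro x y (⟨rfl, i, rfl⟩ | ⟨rfl, i, rfl⟩)
    · exact h i
    · exact (h i).symm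
  edge_vert := by
    rintro x y (⟨rfl, i, rfl⟩ | ⟨rfl, i, rfl⟩)
    · exact Or.inl rfl
    · exact Or.inr ⟨i, rfl⟩
  symm := ⟨fun _ _ h => h.symm⟩

theorem star_iso {W : Type} [Fintype W] [DecidableEq W] (T : SimpleGraph W) [DecidableRel T.Adj]
    (hT : T.IsTree) (c : W) (hc : ∀ w, w ≠ c → T.Adj c w) (G : SimpleGraph V) (v : V)
    (nb : Fin T.edgeFinset.card → V) (hinj : Function.Injective nb) (h : ∀ i, G.Adj v (nb i)) :
    Nonempty (T ≃g (starSub G _ v nb h).coe) := by
  classical
  have hcard : T.edgeFinset.card + 1 = Fintype.card W := by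
    have := (SimpleGraph.isTree_iff_connected_and_card.1 hT).2
    rwa [Nat.card_eq_fintype_card, Nat.card_eq_fintype_card, ← SimpleGraph.edgeFinset_card] at this
  have hc2 : Fintype.card {w : W // w ≠ c} = T.edgeFinset.card := by
    rw [Fintype.card_subtype_compl, Fintype.card_subtype_eq]
    omega
  let f : {w : W // w ≠ c} ≃ Fin T.edgeFinset.card := Fintype.equivFinOfCardEq hc2
  have hv : ∀ i, nb i ≠ v := fun i hi => G.loopless.irrefl v (by have := h i; rwa [hi] at this)
  -- in a star no two leaves are adjacent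
  have hnon : ∀ a b, a ≠ c → b ≠ c → ¬ T.Adj a b := by
    intro a b ha hb hab
    have h1 : T.Adj a c := (hc a ha).symm
    have h2 : T.Adj c b := hc b hb
    let p : T.Walk a b := SimpleGraph.Walk.cons hab SimpleGraph.Walk.nil
    let q : T.Walk a b := SimpleGraph.Walk.cons h1 (SimpleGraph.Walk.cons h2 SimpleGraph.Walk.nil)
    have hp : p.IsPath := by
      simp [p, hab.ne]
    have hq : q.IsPath := by
      simp [q, ha, hab.ne, Ne.symm hb]
    have h3 := hT.2.path_unique ⟨p, hp⟩ ⟨q, hq⟩
    have h4 : p.length = q.length := by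
      have := congrArg (fun r : T.Path a b => r.1.length) h3
      exact this
    simp [p, q] at h4
  let g : W → (starSub G _ v nb h).verts := fun w =>
    if hw : w = c then ⟨v, Or.inl rfl⟩ else ⟨nb (f ⟨w, hw⟩), Or.inr ⟨_, rfl⟩⟩
  have gc : g c = ⟨v, Or.inl rfl⟩ := by simp [g]
  have gn : ∀ w (hw : w ≠ c), g w = ⟨nb (f ⟨w, hw⟩), Or.inr ⟨_, rfl⟩⟩ := by
    intro w hw; simp [g, hw]
  have gcv : (g c).1 = v := by rw [gc]
  have gnv : ∀ w (hw : w ≠ c), (g w).1 = nb (f ⟨w, hw⟩) := by intro w hw; rw [gn w hw]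
  have ginj : Function.Injective g := by
    intro a b hab
    have hab' : (g a).1 = (g b).1 := by rw [hab]
    by_cases ha : a = c
    · by_cases hb : b = c
      · rw [ha, hb]
      · rw [ha, gcv, gnv b hb] at hab'
        exact absurd hab'.symm (hv _)
    · by_cases hb : b = c
      · rw [hb, gcv, gnv a ha] at hab'
        exact absurd hab' (hv _)
      · rw [gnv a ha, gnv b hb] at hab'
        have := f.injective (hinj hab')
        exact congrArg Subtype.val this
  have gsurj : Function.Surjective g := by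
    rintro ⟨x, hx⟩
    rcases hx with hx | ⟨i, hi⟩
    · refine ⟨c, ?_⟩
      rw [gc]
      exact Subtype.ext hx.symm
    · refine ⟨(f.symm i).1, ?_⟩
      rw [gn _ (f.symm i).2]
      apply Subtype.ext
      simp only [Subtype.coe_eta, Equiv.apply_symm_apply]
      exact hi
  refine ⟨⟨Equiv.ofBijective g ⟨ginj, gsurj⟩, ?_⟩⟩
  intro a b
  change ((g a).1 = v ∧ (g b).1 ∈ Set.range nb) ∨ ((g b).1 = v ∧ (g a).1 ∈ Set.range nb) ↔ _
  by_cases ha : a = c
  · by_cases hb : b = c
    · rw [ha, hb, gcv]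
      constructor
      · rintro (⟨-, i, hi⟩ | ⟨-, i, hi⟩)
        · exact absurd hi (hv i)
        · exact absurd hi (hv i)
      · intro h1
        exact absurd rfl h1.ne
    · constructor
      · intro _
        rw [ha]
        exact hc b hb
      · intro _
        left
        rw [ha, gcv, gnv b hb]
        exact ⟨rfl, ⟨_, rfl⟩⟩
  · by_cases hb : b = c
    · constructor
      · intro _
        rw [hb]
        exact (hc a ha).symm
      · intro _
        right
        rw [hb, gcv, gnv a ha]
        exact ⟨rfl, ⟨_, rfl⟩⟩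
    · rw [gnv a ha, gnv b hb]
      constructor
      · rintro (⟨h1, _⟩ | ⟨h1, _⟩)
        · exact absurd h1 (hv _)
        · exact absurd h1 (hv _)
      · intro h1
        exact absurd h1 (hnon a b ha hb)

/-- Every simple graph with `m` edge-disjoint connected spanning subgraphs whose number of edges is
divisible by `m` decomposes into copies of the star with `m` edges. -/
theorem star_decomposition (G : SimpleGraph V) [DecidableRel G.Adj]
    {W : Type} [Fintype W] [DecidableEq W] (T : SimpleGraph W) [DecidableRel T.Adj]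
    (hT : T.IsTree) (c : W) (hc : ∀ w, w ≠ c → T.Adj c w)
    (F : Fin T.edgeFinset.card → SimpleGraph V) (hF : ∀ i, F i ≤ G ∧ (F i).Connected)
    (hd : Pairwise (fun i j => Disjoint (F i) (F j)))
    (hdvd : T.edgeFinset.card ∣ G.edgeFinset.card) :
    ∃ (n : ℕ) (H : Fin n → G.Subgraph),
      (∀ i, Nonempty (T ≃g (H i).coe)) ∧
      Pairwise (fun i j => Disjoint (H i).edgeSet (H j).edgeSet) ∧
      (∀ e ∈ G.edgeSet, ∃ i, e ∈ (H i).edgeSet) := by
  classical
  rcases Nat.eq_zero_or_pos T.edgeFinset.card with h0 | hm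
  · rw [h0, Nat.zero_dvd, Finset.card_eq_zero] at hdvd
    refine ⟨0, Fin.elim0, fun i => i.elim0, fun i => i.elim0, fun e he => ?_⟩
    rw [← SimpleGraph.mem_edgeFinset, hdvd] at he
    exact absurd he (Finset.notMem_empty e)
  obtain ⟨t, ht, hmod⟩ := exists_tail G _ hm F hF hd hdvd
  -- the classes
  let O : V → Finset G.edgeSet := fun v => univ.filter (fun e => t e = v)
  let k : V → ℕ := fun v => (O v).card / T.edgeFinset.card
  have hk : ∀ v, Fintype.card (Fin (k v) × Fin T.edgeFinset.card) = (O v).card := by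
    intro v
    rw [Fintype.card_prod, Fintype.card_fin, Fintype.card_fin]
    exact Nat.div_mul_cancel (hmod v)
  let φ : ∀ v, Fin (k v) × Fin T.edgeFinset.card ≃ O v := fun v =>
    Fintype.equivOfCardEq (by rw [hk v, Fintype.card_coe])
  -- the other end
  have hother : ∀ e : G.edgeSet, ∃ w, e.1 = s(t e, w) := by
    intro e
    obtain ⟨w, hw⟩ := Sym2.mem_iff_exists.1 (ht e)
    exact ⟨w, hw⟩
  choose ot hot using hother
  have htO : ∀ v (p : Fin (k v) × Fin T.edgeFinset.card), t (φ v p).1 = v := by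
    intro v p
    exact (mem_filter.1 (φ v p).2).2
  let nb : ∀ (j : Σ v, Fin (k v)), Fin T.edgeFinset.card → V := fun j i => ot (φ j.1 (j.2, i)).1
  have hedge : ∀ (j : Σ v, Fin (k v)) i, (φ j.1 (j.2, i)).1.1 = s(j.1, nb j i) := by
    intro j i
    have h1 := hot (φ j.1 (j.2, i)).1
    rw [htO] at h1
    exact h1
  have hadj : ∀ (j : Σ v, Fin (k v)) i, G.Adj j.1 (nb j i) := by
    intro j i
    have h1 := (φ j.1 (j.2, i)).1.2
    rw [hedge] at h1
    exact h1
  have hinj : ∀ j : Σ v, Fin (k v), Function.Injective (nb j) := by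
    intro j i i' h
    have h1 : (φ j.1 (j.2, i)).1.1 = (φ j.1 (j.2, i')).1.1 := by rw [hedge, hedge, h]
    have h2 := (φ j.1).injective (Subtype.ext (Subtype.ext h1))
    exact (Prod.ext_iff.1 h2).2
  let K : (Σ v, Fin (k v)) → G.Subgraph := fun j => starSub G _ j.1 (nb j) (hadj j)
  have hK : ∀ j e, e ∈ (K j).edgeSet ↔ ∃ i, e = (φ j.1 (j.2, i)).1.1 := by
    intro j e
    induction e using Sym2.ind with
    | _ a b =>
      rw [SimpleGraph.Subgraph.mem_edgeSet]
      constructor
      · rintro (⟨h1, i, h2⟩ | ⟨h1, i, h2⟩)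
        · exact ⟨i, by rw [hedge, h1, ← h2]⟩
        · exact ⟨i, by rw [hedge, h1, ← h2, Sym2.eq_swap]⟩
      · rintro ⟨i, hi⟩
        rw [hedge, Sym2.eq_iff] at hi
        rcases hi with ⟨h1, h2⟩ | ⟨h1, h2⟩
        · exact Or.inl ⟨h1, i, h2.symm⟩
        · exact Or.inr ⟨h2, i, h1.symm⟩
  let σ : Fin (Fintype.card (Σ v, Fin (k v))) ≃ (Σ v, Fin (k v)) := (Fintype.equivFin _).symm
  refine ⟨_, fun i => K (σ i), ?_, ?_, ?_⟩
  · intro i
    exact star_iso T hT c hc G _ _ (hinj _) (hadj _)
  · intro i j hij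
    rw [Set.disjoint_left]
    intro e he he'
    obtain ⟨a, ha⟩ := (hK _ _).1 he
    obtain ⟨b, hb⟩ := (hK _ _).1 he'
    apply hij
    apply σ.injective
    have h1 : (φ (σ i).1 ((σ i).2, a)).1 = (φ (σ j).1 ((σ j).2, b)).1 :=
      Subtype.ext (ha.symm.trans hb)
    have h2 : (σ i).1 = (σ j).1 := by
      rw [← htO (σ i).1 ((σ i).2, a), ← htO (σ j).1 ((σ j).2, b), h1]
    generalize σ i = x at h1 h2
    generalize σ j = y at h1 h2
    obtain ⟨v, x⟩ := x
    obtain ⟨w, y⟩ := y
    simp only at h2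
    subst h2
    have h3 := (φ v).injective (Subtype.ext h1)
    rw [Prod.ext_iff] at h3
    simp only at h3
    rw [h3.1]
  · intro e he
    let e' : G.edgeSet := ⟨e, he⟩
    have h1 : e' ∈ O (t e') := mem_filter.2 ⟨mem_univ _, rfl⟩
    let p := (φ (t e')).symm ⟨e', h1⟩
    refine ⟨σ.symm ⟨t e', p.1⟩, ?_⟩
    change e ∈ (K (σ (σ.symm ⟨t e', p.1⟩))).edgeSet
    rw [Equiv.apply_symm_apply, hK]
    refine ⟨p.2, ?_⟩
    change e = (φ (t e') (p.1, p.2)).1.1
    have h2 : φ (t e') (p.1, p.2) = ⟨e', h1⟩ := by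
      rw [Prod.mk.eta]; exact Equiv.apply_symm_apply _ _
    rw [h2]

end Pool.Agent.N419.StarDec
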